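import Pool.Agent.P.MP_22a609_co.Lat3

namespace Pool.Agent.Results.MP_22a609_co.LatticeTorsion

open Pool.Agent.P.MP_22a609_co

theorem atm_add (m : ℕ) :
    ∃ a : Setoid (Fin (14 + m)), Atm ((lam : Multiset ℕ) + Multiset.replicate m 1) a := by
  induction m with
  | zero => exact ⟨_, blk lam, rfl, by simpa [shp] using (leaf2_of_perm (List.Perm.refl _)).2.2⟩
  | succ m ih =>
    obtain ⟨a, ha⟩ := ih
    rw [Multiset.replicate_succ, Multiset.add_cons]
    exact ⟨_, atm_up (β := Fin (14 + m + 1)) (π := Fin.cons ⟨0, by omega⟩ id) (e := Fin.succ)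
      (o := 0) (fun a => by simp)
      (fun b => Fin.cases (Or.inl rfl) (fun a => Or.inr ⟨a, rfl⟩) b) Fin.succ_ne_zero ha⟩

theorem tor_add (m : ℕ) :
    Tor (QQ (Fin (m + 14)) ((lam : Multiset ℕ) + Multiset.replicate m 1)) (m + 5) := by
  induction m with
  | zero => simpa using tor_base
  | succ m ih =>
    rw [Multiset.replicate_succ, Multiset.add_cons]
    refine tor_step (n := m + 12) ?_ ih
    have := atm_add m
    rwa [Nat.add_comm 14 m] at this

theorem atm_ne_bot {n : ℕ} {μ : Multiset ℕ} (hμ : 4 ∈ μ) {a : Setoid (Fin n)} (ha : Atm μ a) :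
    a ≠ ⊥ := by
  obtain ⟨f, rfl, rfl⟩ := ha
  intro h
  obtain ⟨v, -, hv⟩ := Multiset.mem_map.1 hμ
  obtain ⟨i, hi, j, hj, hij⟩ := Finset.one_lt_card.1 (hv ▸ (by norm_num : 1 < 4))
  have : (Setoid.ker f) i j := (Finset.mem_filter.1 hi).2.trans (Finset.mem_filter.1 hj).2.symm
  rw [h] at this
  exact hij this

theorem tor_lattice {n k : ℕ} {μ : Multiset ℕ} (hμ : 4 ∈ μ) (h : Tor (QQ (Fin n) μ) k) :
    Tor {t : Setoid (Fin n) | (∃ S : Set (Setoid (Fin n)), (∀ s ∈ S, Atm μ s) ∧ sSup S = t) ∧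
      t ≠ ⊥ ∧ t ≠ ⊤} k := by
  refine h.map (fun x => sSup {a | Atm μ a ∧ a ≤ x}) id
    (fun x y hxy => sSup_le_sSup fun a ha => ⟨ha.1, ha.2.trans hxy⟩) monotone_id ?_ ?_
    (fun x => sSup_le fun a ha => ha.2)
  · rintro x ⟨hx, a, ha, hax⟩
    exact ⟨⟨_, fun s hs => hs.1, rfl⟩, ne_bot_of_le_ne_bot (atm_ne_bot hμ ha) (le_sSup ⟨ha, hax⟩),
      ne_top_of_le_ne_top hx (sSup_le fun a ha => ha.2)⟩
  · rintro t ⟨⟨S, hS, rfl⟩, h0, h1⟩
    obtain ⟨a, ha⟩ := S.eq_empty_or_nonempty.resolve_left fun h => h0 (by simp [h])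
    exact ⟨h1, a, hS a ha, le_sSup ha⟩

/-- For `n ≥ 14` the order complex of the proper part of the lattice of joins of set partitions of
shape `(4,3,2,2,1,...,1)` has an integral homology class of order two in degree `n - 10`. -/
theorem result : ∀ n : ℕ, 14 ≤ n → ∃ p : Nat.Partition n,
    p.parts = {4, 3, 2, 2} + Multiset.replicate (n - 11) 1 ∧
    ∃ x : ((AlgebraicTopology.singularHomologyFunctor (ModuleCat.{0} ℤ) (n - 10)).obj
      (ModuleCat.of ℤ ℤ)).obj (TopCat.of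
        {x : Setoid (Fin n) → ℝ |
          (∀ t, 0 ≤ x t) ∧
          (∀ t, x t ≠ 0 →
            ((∃ S : Set (Setoid (Fin n)),
                (∀ s ∈ S, ∃ f : Fin n → ℕ, s = Setoid.ker f ∧
                  Multiset.map (fun a => (Finset.univ.filter (fun z => f z = a)).card)
                    (Finset.univ.image f).val = p.parts) ∧
                sSup S = t) ∧ t ≠ ⊥ ∧ t ≠ ⊤)) ∧
          (∑ᶠ t, x t) = 1 ∧
          (∀ a b, x a ≠ 0 → x b ≠ 0 → a ≤ b ∨ b ≤ a)}),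
      addOrderOf x = 2 := by
  intro n hn
  obtain ⟨m, rfl⟩ : ∃ m, n = m + 14 := ⟨n - 14, by omega⟩
  have e : ({4, 3, 2, 2} : Multiset ℕ) + Multiset.replicate (m + 14 - 11) 1 =
      (lam : Multiset ℕ) + Multiset.replicate m 1 := by
    rw [show m + 14 - 11 = 3 + m by omega, Multiset.replicate_add, ← add_assoc]
    rfl
  refine ⟨⟨(lam : Multiset ℕ) + Multiset.replicate m 1, fun {i} hi => ?_, ?_⟩, e.symm, ?_⟩
  · rcases Multiset.mem_add.1 hi with hi | hi
    · exact (by decide : ∀ i ∈ lam, 0 < i) i hi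
    · rw [Multiset.eq_of_mem_replicate hi]; exact one_pos
  · simp [lam]; omega
  have : Finite (Setoid (Fin (m + 14))) :=
    Finite.of_injective (fun s : Setoid (Fin (m + 14)) => s.r) fun _ _ h =>
      Setoid.ext fun a b => iff_of_eq (congrFun (congrFun h a) b)
  have := Fintype.ofFinite (Setoid (Fin (m + 14)))
  refine (tor_lattice (Multiset.mem_add.2 (Or.inl (by decide))) (tor_add m)).sing (k := m + 3) _ ?_
  ext x
  simp only [Set.mem_ofPred_eq, finsum_eq_sum_of_fintype]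
  constructor
  · rintro ⟨h1, h2, h3, h4⟩
    exact ⟨{t | x t ≠ 0}, ⟨fun t ht => h2 t ht, fun a ha b hb => h4 a b ha hb⟩, h1, h3,
      fun _ h => h⟩
  · rintro ⟨U, hU, h1, h3, h2⟩
    exact ⟨h1, fun t ht => hU.1 (h2 t ht), h3, fun a b ha hb => hU.2 a (h2 a ha) b (h2 b hb)⟩

end Pool.Agent.Results.MP_22a609_co.LatticeTorsion
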